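import Pool.Agent.V7H41.CD.Spec

/-!
# Project CD, the numerical piece
-/

open Finset

namespace Pool.Agent.V7H43.CD

open Pool.Agent.V7H41.CD

theorem size (n m : ℕ) (hn : 10 ^ 70 ≤ n) (hm : m ^ 13 ≤ n) :
    10 ^ 25 * m ^ 8 ≤ n ∧ 10 ^ 15 * m ^ 23 ≤ n ^ 2 := by
  rcases le_total m (10 ^ 5) with h | h
  · have h1 : m ^ 8 ≤ (10 ^ 5) ^ 8 := Nat.pow_le_pow_left h 8
    have h2 : m ^ 23 ≤ (10 ^ 5) ^ 23 := Nat.pow_le_pow_left h 23
    have h3 : (10 ^ 70) ^ 2 ≤ n ^ 2 := Nat.pow_le_pow_left hn 2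
    constructor
    · calc 10 ^ 25 * m ^ 8 ≤ 10 ^ 25 * (10 ^ 5) ^ 8 := Nat.mul_le_mul_left _ h1
        _ ≤ 10 ^ 70 := by norm_num
        _ ≤ n := hn
    · calc 10 ^ 15 * m ^ 23 ≤ 10 ^ 15 * (10 ^ 5) ^ 23 := Nat.mul_le_mul_left _ h2
        _ ≤ (10 ^ 70) ^ 2 := by norm_num
        _ ≤ n ^ 2 := h3
  · have h1 : (10 ^ 5) ^ 5 ≤ m ^ 5 := Nat.pow_le_pow_left h 5
    have h2 : (10 ^ 5) ^ 3 ≤ m ^ 3 := Nat.pow_le_pow_left h 3
    have h3 : (m ^ 13) ^ 2 ≤ n ^ 2 := Nat.pow_le_pow_left hm 2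
    constructor
    · calc 10 ^ 25 * m ^ 8 = (10 ^ 5) ^ 5 * m ^ 8 := by norm_num
        _ ≤ m ^ 5 * m ^ 8 := Nat.mul_le_mul_right _ h1
        _ = m ^ 13 := by ring
        _ ≤ n := hm
    · calc 10 ^ 15 * m ^ 23 = (10 ^ 5) ^ 3 * m ^ 23 := by norm_num
        _ ≤ m ^ 3 * m ^ 23 := Nat.mul_le_mul_right _ h2
        _ = (m ^ 13) ^ 2 := by ring
        _ ≤ n ^ 2 := h3

theorem t_NUM : S_NUM := by
  refine ⟨10 ^ 70, fun n m e z hn hm1 hm he1 hem hz hzn => ?_⟩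
  obtain ⟨hA, hB⟩ := size n m hn hm
  have hm1' : (1 : ℝ) ≤ m := by exact_mod_cast hm1
  have hm0 : (0 : ℝ) < m := by linarith
  have hn' : (10 : ℝ) ^ 70 ≤ n := by exact_mod_cast hn
  have hn0 : (0 : ℝ) < n := lt_of_lt_of_le (by positivity) hn'
  have hA' : (10 : ℝ) ^ 25 * (m : ℝ) ^ 8 ≤ n := by exact_mod_cast hA
  have hB' : (10 : ℝ) ^ 15 * (m : ℝ) ^ 23 ≤ (n : ℝ) ^ 2 := by exact_mod_cast hB
  have hem' : (e : ℝ) ≤ m := by exact_mod_cast hem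
  have he1' : (1 : ℝ) ≤ e := by exact_mod_cast he1
  have hz' : (n : ℝ) ≤ (m : ℝ) ^ 2 * z + 2 * m := by exact_mod_cast hz
  have hzn' : (z : ℝ) ≤ n := by exact_mod_cast hzn
  have hp : ∀ a b : ℕ, a ≤ b → (m : ℝ) ^ a ≤ (m : ℝ) ^ b := fun a b h => pow_le_pow_right₀ hm1' h
  have h68 := hp 6 8 (by norm_num)
  have h38 := hp 3 8 (by norm_num)
  have h18 := hp 1 8 (by norm_num)
  rw [pow_one] at h18
  have h78 := hp 7 8 (by norm_num)
  set s : ℕ := z / (16 * (e + 2)) with hs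
  have hs1 : 16 * s * (e + 2) ≤ z := by
    have := Nat.div_mul_le_self z (16 * (e + 2))
    calc 16 * s * (e + 2) = z / (16 * (e + 2)) * (16 * (e + 2)) := by rw [hs]; ring
      _ ≤ z := this
  have hs2 : z < (s + 1) * (16 * (e + 2)) := by
    have := Nat.lt_div_mul_add (a := z) (b := 16 * (e + 2)) (by positivity)
    calc z < z / (16 * (e + 2)) * (16 * (e + 2)) + 16 * (e + 2) := this
      _ = (s + 1) * (16 * (e + 2)) := by rw [hs]; ring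
  have hs2' : (z : ℝ) < ((s : ℝ) + 1) * (16 * (e + 2)) := by exact_mod_cast hs2
  have he3 : (e : ℝ) + 2 ≤ 3 * m := by linarith
  have hs0 : (0 : ℝ) ≤ s := Nat.cast_nonneg _
  -- `z < 48 m (s + 1)`
  have hs3 : (z : ℝ) ≤ ((s : ℝ) + 1) * (48 * m) := by
    calc (z : ℝ) ≤ ((s : ℝ) + 1) * (16 * (e + 2)) := hs2'.le
      _ ≤ ((s : ℝ) + 1) * (48 * m) := by
        apply mul_le_mul_of_nonneg_left _ (by linarith)
        linarith
  -- `n ≤ 52 m ^ 3 s`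
  have hs4 : (n : ℝ) ≤ 52 * (m : ℝ) ^ 3 * s := by
    have h1 : (m : ℝ) ^ 2 * z ≤ (m : ℝ) ^ 2 * (((s : ℝ) + 1) * (48 * m)) :=
      mul_le_mul_of_nonneg_left hs3 (by positivity)
    have h2 : (m : ℝ) ^ 2 * (((s : ℝ) + 1) * (48 * m)) = 48 * ((m : ℝ) ^ 3 * s) + 48 * (m : ℝ) ^ 3 := by
      ring
    have h3 : (n : ℝ) ≤ 48 * ((m : ℝ) ^ 3 * s) + 48 * (m : ℝ) ^ 3 + 2 * m := by linarith
    have h4 : 48 * (m : ℝ) ^ 3 + 2 * m ≤ n / 13 := by linarith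
    linarith
  -- `s > 0`
  have hs5 : 1 ≤ s := by
    by_contra h
    have h0 : s = 0 := Nat.lt_one_iff.1 (not_le.1 h)
    rw [h0] at hs4
    simp at hs4
    omega
  set a : ℝ := (s : ℝ) ^ 2 / 8 with ha
  set b : ℝ := 2 * m * n with hb
  set K : ℝ := n / (43264 * (m : ℝ) ^ 7) with hK
  have hb0 : 0 < b := by positivity
  have hK0 : 0 < K := by positivity
  have hs6 : (n : ℝ) ^ 2 ≤ 2704 * (m : ℝ) ^ 6 * (s : ℝ) ^ 2 := by
    calc (n : ℝ) ^ 2 ≤ (52 * (m : ℝ) ^ 3 * s) ^ 2 := pow_le_pow_left₀ hn0.le hs4 2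
      _ = 2704 * (m : ℝ) ^ 6 * (s : ℝ) ^ 2 := by ring
  have hbK : b * K ≤ a := by
    have h1 : b * K = (n : ℝ) ^ 2 / (21632 * (m : ℝ) ^ 6) := by
      rw [hb, hK]
      field_simp
      ring
    rw [h1, ha, div_le_div_iff₀ (by positivity) (by norm_num)]
    linarith
  have hK2 : 2 * (m : ℝ) ≤ K := by
    rw [hK, le_div_iff₀ (by positivity)]
    have : 2 * (m : ℝ) * (43264 * (m : ℝ) ^ 7) = 86528 * (m : ℝ) ^ 8 := by ring
    rw [this]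
    linarith [pow_pos hm0 8]
  have hK1 : 1 ≤ K := by linarith
  have hK3 : 2 * (m : ℝ) ^ 2 * n ≤ K ^ 3 := by
    have h1 : K ^ 3 = (n : ℝ) ^ 3 / (43264 ^ 3 * (m : ℝ) ^ 21) := by
      rw [hK, div_pow]
      congr 1
      ring
    rw [h1, le_div_iff₀ (by positivity)]
    have h2 : 2 * (m : ℝ) ^ 2 * n * (43264 ^ 3 * (m : ℝ) ^ 21) = n * (2 * 43264 ^ 3 * (m : ℝ) ^ 23) := by
      ring
    have h3 : (n : ℝ) ^ 3 = n * (n : ℝ) ^ 2 := by ring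
    rw [h2, h3]
    apply mul_le_mul_of_nonneg_left _ hn0.le
    refine le_trans ?_ hB'
    apply mul_le_mul_of_nonneg_right _ (by positivity)
    norm_num
  have hdesc : ((m + 1).choose (e + 1) : ℝ) * (e + 1).factorial ≤ (2 * (m : ℝ)) ^ (e + 1) := by
    have h1 : (m + 1).choose (e + 1) * (e + 1).factorial ≤ (2 * m) ^ (e + 1) := by
      calc (m + 1).choose (e + 1) * (e + 1).factorial = (m + 1).descFactorial (e + 1) := by
            rw [Nat.descFactorial_eq_factorial_mul_choose, mul_comm]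
        _ ≤ (m + 1) ^ (e + 1) := Nat.descFactorial_le_pow _ _
        _ ≤ (2 * m) ^ (e + 1) := Nat.pow_le_pow_left (by omega) _
    exact_mod_cast h1
  have hpow : b ^ (e + 1) * K ^ (e + 1) ≤ a ^ (e + 1) := by
    rw [← mul_pow]
    exact pow_le_pow_left₀ (by positivity) hbK _
  have hb' : b ^ (e + 1) = (2 * (m : ℝ)) ^ (e + 1) * (n : ℝ) ^ (e + 1) := by
    rw [hb, mul_pow]
  refine ⟨s, hs5, hs1, ?_, ?_, fun he2 => ?_⟩
  · -- `4 z ≤ s ^ 2`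
    have h1 : (4 : ℝ) * z ≤ (s : ℝ) ^ 2 := by
      have h2 : 10816 * (m : ℝ) ^ 6 ≤ n := by linarith [pow_pos hm0 6]
      have h3 : 10816 * (m : ℝ) ^ 6 * n ≤ n * n := mul_le_mul_of_nonneg_right h2 hn0.le
      have h4 : 2704 * (m : ℝ) ^ 6 * (4 * n) ≤ 2704 * (m : ℝ) ^ 6 * (s : ℝ) ^ 2 := by
        have e1 : 2704 * (m : ℝ) ^ 6 * (4 * (n : ℝ)) = 10816 * (m : ℝ) ^ 6 * (n : ℝ) := by ring
        have e2 : (n : ℝ) * (n : ℝ) = (n : ℝ) ^ 2 := by ring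
        rw [e1]
        linarith
      have h5 : (4 : ℝ) * n ≤ (s : ℝ) ^ 2 := le_of_mul_le_mul_left h4 (by positivity)
      linarith
    exact_mod_cast h1
  · calc ((m + 1).choose (e + 1) : ℝ) * (e + 1).factorial * (2 * m) * (n : ℝ) ^ (e + 1)
        ≤ (2 * (m : ℝ)) ^ (e + 1) * (2 * m) * (n : ℝ) ^ (e + 1) := by
          apply mul_le_mul_of_nonneg_right _ (by positivity)
          exact mul_le_mul_of_nonneg_right hdesc (by positivity)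
      _ = b ^ (e + 1) * (2 * m) := by rw [hb']; ring
      _ ≤ b ^ (e + 1) * K ^ (e + 1) := by
          apply mul_le_mul_of_nonneg_left _ (by positivity)
          calc 2 * (m : ℝ) ≤ K := hK2
            _ = K ^ 1 := (pow_one K).symm
            _ ≤ K ^ (e + 1) := pow_le_pow_right₀ hK1 (by omega)
      _ ≤ a ^ (e + 1) := hpow
  · calc ((m + 1).choose (e + 1) : ℝ) * (e + 1).factorial * (2 * m ^ 2) * (n : ℝ) ^ (e + 2)
        ≤ (2 * (m : ℝ)) ^ (e + 1) * (2 * m ^ 2) * (n : ℝ) ^ (e + 2) := by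
          apply mul_le_mul_of_nonneg_right _ (by positivity)
          exact mul_le_mul_of_nonneg_right hdesc (by positivity)
      _ = b ^ (e + 1) * (2 * (m : ℝ) ^ 2 * n) := by rw [hb']; ring
      _ ≤ b ^ (e + 1) * K ^ (e + 1) := by
          apply mul_le_mul_of_nonneg_left _ (by positivity)
          calc 2 * (m : ℝ) ^ 2 * n ≤ K ^ 3 := hK3
            _ ≤ K ^ (e + 1) := pow_le_pow_right₀ hK1 (by omega)
      _ ≤ a ^ (e + 1) := hpow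

end Pool.Agent.V7H43.CD
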